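import Pool.Agent.H26.LV.TargetsAri

/-!
Rows DOM, NGA and NGB of the board ari_modules (MP_e21eee_nt).
-/

set_option autoImplicit false

open Finset Polynomial

namespace Pool.Agent.H19.LV

open Pool.Agent.H26.LV

lemma dsc_eq (p i : ℕ) (y : ℤ) (F : ℤ[X]) :
    dsc p i y F = (taylor y F).comp (C ((p : ℤ) ^ i) * X) := by
  unfold dsc
  rw [taylor_apply, comp_assoc]
  congr 1
  rw [add_comp, X_comp, C_comp, add_comm]

lemma dsc_coeff (p i j : ℕ) (y : ℤ) (F : ℤ[X]) :
    (dsc p i y F).coeff j = (p : ℤ) ^ (i * j) * (taylor y F).coeff j := by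
  rw [dsc_eq, comp_C_mul_X_coeff, ← pow_mul, mul_comm]

lemma dsc_add (p i j : ℕ) (y t : ℤ) (F : ℤ[X]) :
    dsc p (i + j) (y + (p : ℤ) ^ i * t) F = dsc p j t (dsc p i y F) := by
  unfold dsc
  rw [comp_assoc]
  congr 1
  rw [add_comp, mul_comp, C_comp, C_comp, X_comp, C_add, C_mul, pow_add, C_mul]
  ring

lemma dsc_C_mul (p i : ℕ) (y a : ℤ) (F : ℤ[X]) : dsc p i y (C a * F) = C a * dsc p i y F := by
  unfold dsc
  rw [mul_comp, C_comp]

lemma ppow_ne {p : ℕ} (hp : p.Prime) (w : ℕ) : (p : ℤ) ^ w ≠ 0 :=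
  pow_ne_zero _ (by exact_mod_cast hp.ne_zero)

lemma Dom_C_mul {p : ℕ} (hp : p.Prime) (w : ℕ) {G : ℤ[X]} (h : Dom p G) :
    Dom p (C ((p : ℤ) ^ w) * G) := by
  obtain ⟨v, h1, h2, h3⟩ := h
  refine ⟨w + v, ?_, ?_, ?_⟩
  · rw [coeff_C_mul, pow_add]
    exact mul_dvd_mul_left _ h1
  · rw [coeff_C_mul, add_assoc, pow_add]
    intro hc
    exact h2 ((mul_dvd_mul_iff_left (ppow_ne hp w)).1 hc)
  · intro s hs
    rw [coeff_C_mul, add_assoc, pow_add]
    exact mul_dvd_mul_left _ (h3 s hs)

/-- reduction modulo `p` -/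
noncomputable def red (p : ℕ) (H : ℤ[X]) : (ZMod p)[X] := H.map (Int.castRingHom (ZMod p))

lemma red_coeff_eq_zero (p : ℕ) (H : ℤ[X]) (s : ℕ) :
    (red p H).coeff s = 0 ↔ (p : ℤ) ∣ H.coeff s := by
  unfold red
  rw [coeff_map, eq_intCast, ZMod.intCast_zmod_eq_zero_iff_dvd]

lemma exists_split {p : ℕ} (hp : p.Prime) {H : ℤ[X]} (hH : H ≠ 0) :
    ∃ (w : ℕ) (H' : ℤ[X]), H = C ((p : ℤ) ^ w) * H' ∧ red p H' ≠ 0 := by
  have hu : ¬ IsUnit (C (p : ℤ)) := by
    rw [isUnit_C]
    exact (Nat.prime_iff_prime_int.1 hp).not_isUnit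
  obtain ⟨n, a, ha, he⟩ := WfDvdMonoid.max_power_factor' hH hu
  refine ⟨n, a, ?_, ?_⟩
  · rw [he, C_pow]
  · intro h0
    apply ha
    rw [C_dvd_iff_dvd_coeff]
    intro i
    rw [← red_coeff_eq_zero, h0, coeff_zero]

lemma red_taylor (p : ℕ) (t : ℕ) (H : ℤ[X]) :
    red p (taylor (t : ℤ) H) = taylor (t : ZMod p) (red p H) := by
  unfold red
  rw [taylor_apply, taylor_apply, map_comp]
  simp

lemma key_deg {p : ℕ} (hp : p.Prime) (t : ℕ) {H G : ℤ[X]} {w : ℕ} (hH : red p H ≠ 0)
    (hG : dsc p 1 (t : ℤ) H = C ((p : ℤ) ^ w) * G) :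
    (red p G).natDegree ≤ (red p H).rootMultiplicity (t : ZMod p) := by
  have := Fact.mk hp
  set μ := (red p H).rootMultiplicity (t : ZMod p) with hμ
  have h1 : (taylor (t : ZMod p) (red p H)).coeff μ ≠ 0 := by
    rw [hμ, rootMultiplicity_eq_natTrailingDegree, ← taylor_apply]
    have h0 : taylor (t : ZMod p) (red p H) ≠ 0 := by
      intro h
      exact hH ((taylor_injective (t : ZMod p)) (by rw [h, map_zero]))
    exact trailingCoeff_nonzero_iff_nonzero.2 h0
  have h2 : ¬ (p : ℤ) ∣ (taylor (t : ℤ) H).coeff μ := by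
    intro hd
    apply h1
    rw [← red_taylor, red_coeff_eq_zero]
    exact hd
  have hc : ∀ s, (p : ℤ) ^ s * (taylor (t : ℤ) H).coeff s = (p : ℤ) ^ w * G.coeff s := by
    intro s
    have e := congrArg (fun f : ℤ[X] => f.coeff s) hG
    simp only [dsc_coeff, coeff_C_mul, one_mul] at e
    exact e
  have h3 : w ≤ μ := by
    by_contra hlt
    push Not at hlt
    apply h2
    have e := hc μ
    obtain ⟨r, rfl⟩ : ∃ r, w = μ + (r + 1) := ⟨w - μ - 1, by omega⟩
    rw [pow_add, mul_assoc] at e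
    have e2 := mul_left_cancel₀ (ppow_ne hp μ) e
    rw [e2, pow_succ]
    exact Dvd.intro_left ((p : ℤ) ^ r * G.coeff μ) (by ring)
  rw [natDegree_le_iff_coeff_eq_zero]
  intro s hs
  rw [red_coeff_eq_zero]
  have e := hc s
  obtain ⟨r, rfl⟩ : ∃ r, s = w + (r + 1) := ⟨s - w - 1, by omega⟩
  rw [pow_add, mul_assoc] at e
  have e2 := mul_left_cancel₀ (ppow_ne hp w) e
  rw [← e2, pow_succ]
  exact Dvd.intro_left ((p : ℤ) ^ r * (taylor (t : ℤ) H).coeff (w + (r + 1))) (by ring)

lemma sum_rootMult {p : ℕ} (hp : p.Prime) (Q : (ZMod p)[X]) :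
    ∑ t ∈ range p, Q.rootMultiplicity (t : ZMod p) ≤ Q.natDegree := by
  classical
  have := Fact.mk hp
  have hinj : Set.InjOn (fun t : ℕ => (t : ZMod p)) (range p : Finset ℕ) := by
    intro a ha b hb hab
    have h : (a : ZMod p) = (b : ZMod p) := hab
    rw [ZMod.natCast_eq_natCast_iff'] at h
    rw [Finset.mem_coe, mem_range] at ha hb
    rwa [Nat.mod_eq_of_lt ha, Nat.mod_eq_of_lt hb] at h
  have h1 : ∑ t ∈ range p, Q.rootMultiplicity (t : ZMod p) =
      ∑ a ∈ (range p).image (fun t : ℕ => (t : ZMod p)), Q.rootMultiplicity a := by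
    rw [Finset.sum_image hinj]
  rw [h1]
  refine le_trans (Finset.sum_le_sum_of_subset (subset_univ _)) ?_
  have h2 : ∑ a : ZMod p, Q.rootMultiplicity a = Multiset.card Q.roots := by
    rw [← Multiset.sum_count_eq_card (s := (univ : Finset (ZMod p))) (fun a _ => mem_univ a)]
    refine Finset.sum_congr rfl (fun a _ => ?_)
    rw [count_roots]
  rw [h2]
  exact card_roots' Q

lemma card_split (p m : ℕ) (hp : 0 < p) (P : ℕ → Prop) [DecidablePred P] :
    ((range (p * m)).filter P).card ≤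
      ∑ t ∈ range p, ((range m).filter fun y => P (t + p * y)).card := by
  have hsub : (range (p * m)).filter P ⊆ (range p).biUnion
      (fun t => ((range m).filter fun y => P (t + p * y)).image (fun y => t + p * y)) := by
    intro z hz
    rw [mem_filter, mem_range] at hz
    rw [mem_biUnion]
    refine ⟨z % p, mem_range.2 (Nat.mod_lt _ hp), ?_⟩
    rw [mem_image]
    refine ⟨z / p, ?_, Nat.mod_add_div z p⟩
    rw [mem_filter, mem_range, Nat.mod_add_div]
    exact ⟨Nat.div_lt_of_lt_mul hz.1, hz.2⟩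
  refine le_trans (card_le_card hsub) (le_trans card_biUnion_le ?_)
  exact Finset.sum_le_sum (fun t _ => card_image_le)

open Classical in
lemma dom_aux {p : ℕ} (hp : p.Prime) : ∀ (i : ℕ) (H : ℤ[X]), red p H ≠ 0 →
    ((range (p ^ i)).filter fun y : ℕ => ¬ Dom p (dsc p i (y : ℤ) H)).card ≤ (red p H).natDegree := by
  intro i
  induction i with
  | zero =>
    intro H hH
    rw [pow_zero]
    by_cases hd : (red p H).natDegree = 0
    · have hD : Dom p H := by
        refine ⟨0, by simp, ?_, ?_⟩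
        · intro h
          rw [zero_add, pow_one, ← red_coeff_eq_zero] at h
          apply hH
          rw [eq_C_of_natDegree_eq_zero hd, h, C_0]
        · intro s hs
          rw [zero_add, pow_one, ← red_coeff_eq_zero]
          exact coeff_eq_zero_of_natDegree_lt (by omega)
      have he : ∀ y : ℕ, y < 1 → dsc p 0 (y : ℤ) H = H := by
        intro y hy
        have hy0 : y = 0 := by omega
        unfold dsc
        rw [hy0, pow_zero, Nat.cast_zero, C_0, C_1, zero_add, one_mul, comp_X]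
      have hemp : ((range 1).filter fun y : ℕ => ¬ Dom p (dsc p 0 (y : ℤ) H)) = ∅ := by
        rw [filter_eq_empty_iff]
        intro y hy
        rw [he y (mem_range.1 hy), not_not]
        exact hD
      rw [hemp, card_empty]
      exact Nat.zero_le _
    · refine le_trans (card_filter_le _ _) ?_
      rw [card_range]
      omega
  | succ i ih =>
    intro H hH
    rw [pow_succ, mul_comm]
    refine le_trans (card_split p (p ^ i) hp.pos _) (le_trans ?_ (sum_rootMult hp (red p H)))
    refine Finset.sum_le_sum (fun t _ => ?_)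
    have hne : dsc p 1 (t : ℤ) H ≠ 0 := by
      intro h0
      apply hH
      ext s
      rw [coeff_zero, red_coeff_eq_zero]
      have h1 : taylor (t : ℤ) H = 0 := by
        ext s
        have e := congrArg (fun f : ℤ[X] => f.coeff s) h0
        simp only [dsc_coeff, coeff_zero] at e
        rw [coeff_zero]
        exact (mul_eq_zero.1 e).resolve_left (ppow_ne hp _)
      have h2 : H = 0 := (taylor_injective (t : ℤ)) (by rw [h1, map_zero])
      rw [h2, coeff_zero]
      exact dvd_zero _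
    obtain ⟨w, G, hG, hGr⟩ := exists_split hp hne
    refine le_trans ?_ (key_deg hp t hH hG)
    refine le_trans (card_le_card ?_) (ih G hGr)
    intro y hy
    rw [mem_filter] at hy ⊢
    refine ⟨hy.1, fun hD => hy.2 ?_⟩
    have e : dsc p (i + 1) ((t + p * y : ℕ) : ℤ) H = dsc p i (y : ℤ) (dsc p 1 (t : ℤ) H) := by
      rw [← dsc_add, add_comm 1 i, pow_one]
      push_cast
      rfl
    rw [e, hG, dsc_C_mul]
    exact Dom_C_mul hp w hD

open Classical in
/-- the coercion of a finite set of natural numbers to a finite set of integers which is used in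
the statements of DOM, NGA and NGB -/
lemma conv_card (S : Finset ℕ) (P : ℤ → Prop) [DecidablePred P] :
    ((do let a ← S; pure (a : ℤ) : Finset ℤ).filter P).card =
      (S.filter (fun y : ℕ => P (y : ℤ))).card := by
  have h : (do let a ← S; pure (a : ℤ) : Finset ℤ) = S.image (fun a : ℕ => (a : ℤ)) := by
    ext x
    simp
  rw [h, filter_image, card_image_of_injective _ Nat.cast_injective]

/-- Row DOM. -/
theorem pf_DOM : T_DOM := by
  classical
  intro d p i H hp hH hd
  obtain ⟨w, H', rfl, hH'⟩ := exists_split hp hH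
  have h1 := dom_aux hp i H' hH'
  rw [conv_card]
  have h2 : (red p H').natDegree ≤ d := by
    refine le_trans (natDegree_map_le) (le_trans ?_ hd)
    rw [natDegree_C_mul (ppow_ne hp w)]
  refine le_trans (card_le_card ?_) (le_trans h1 h2)
  intro y hy
  rw [mem_filter] at hy ⊢
  refine ⟨hy.1, fun hD => hy.2 ?_⟩
  rw [dsc_C_mul]
  exact Dom_C_mul hp w hD

end Pool.Agent.H19.LV
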