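import Pool.Agent.H19.LV.DOM

/-!
Rows NGA and NGB of the board ari_modules (MP_e21eee_nt).
-/

set_option autoImplicit false

open Finset Polynomial

namespace Pool.Agent.H19.LV

open Pool.Agent.H26.LV

/-- the second derivative on a disc -/
lemma dsc_hasse (hVAL : T_VAL) (p i s : ℕ) (y : ℤ) (F : ℤ[X]) :
    (((s + 2).choose 2 : ℕ) : ℤ) * (dsc p i y F).coeff (s + 2) =
      (p : ℤ) ^ (2 * i) * (dsc p i y (hasseDeriv 2 F)).coeff s := by
  obtain ⟨-, hV, -⟩ := hVAL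
  rw [hV p i (s + 2) y F, hV p i s y (hasseDeriv 2 F)]
  have h1 : hasseDeriv s (hasseDeriv 2 F) = (s + 2).choose s • hasseDeriv (s + 2) F := by
    have h := hasseDeriv_comp (R := ℤ) s 2
    have h2 := congrArg (fun L : ℤ[X] →ₗ[ℤ] ℤ[X] => L F) h
    simpa using h2
  rw [h1, eval_smul, nsmul_eq_mul, Nat.choose_symm_add, mul_add, pow_add, mul_comm i 2]
  ring

lemma hasse_ne {p : ℕ} {F : ℤ[X]} (h : Prm p F) : hasseDeriv 2 F ≠ 0 := by
  obtain ⟨j, hj, hd⟩ := h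
  intro h0
  have e := congrArg (fun f : ℤ[X] => f.coeff (j - 2)) h0
  simp only [hasseDeriv_coeff, coeff_zero] at e
  rw [Nat.sub_add_cancel hj] at e
  rcases mul_eq_zero.1 e with h1 | h1
  · have h2 : 0 < j.choose 2 := Nat.choose_pos hj
    have h3 : j.choose 2 = 0 := by exact_mod_cast h1
    omega
  · exact hd (h1 ▸ dvd_zero _)

lemma dsc_coeff_zero {k : ℕ} {F : ℤ[X]} (hF : F.natDegree ≤ k) (p i : ℕ) (y : ℤ) {j : ℕ}
    (hj : k < j) : (dsc p i y F).coeff j = 0 := by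
  rw [dsc_coeff, coeff_eq_zero_of_natDegree_lt, mul_zero]
  rw [natDegree_taylor]
  omega

lemma not_dvd_choose {p n : ℕ} (hp : p.Prime) (hn : n < p) (h2 : 2 ≤ n) : ¬ p ∣ n.choose 2 := by
  intro h
  have h1 : p ∣ n.factorial := by
    rw [← Nat.choose_mul_factorial_mul_factorial h2, mul_assoc]
    exact Dvd.dvd.mul_right h _
  have h3 := (hp.dvd_factorial).1 h1
  omega

/-- Row NGA. -/
theorem pf_NGA (hDOM : T_DOM) (hVAL : T_VAL) : T_NGA := by
  classical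
  intro k p i F hp hkp hF hPrm
  have h1 := hDOM k p i (hasseDeriv 2 F) hp (hasse_ne hPrm)
    (le_trans (natDegree_hasseDeriv_le _ _) (by omega))
  refine le_trans (card_le_card ?_) h1
  intro y hy
  rw [mem_filter] at hy ⊢
  refine ⟨hy.1, fun hD => hy.2 ?_⟩
  obtain ⟨w, hw1, hw2, hw3⟩ := hD
  have e0 := dsc_hasse hVAL p i 0 y F
  have hc : ((0 + 2).choose 2 : ℕ) = 1 := by decide
  rw [hc, Nat.cast_one, one_mul, zero_add] at e0
  refine ⟨2 * i + w, ?_, ?_, ?_⟩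
  · rw [e0, pow_add]
    exact mul_dvd_mul_left _ hw1
  · rw [e0, add_assoc, pow_add]
    intro h
    exact hw2 ((mul_dvd_mul_iff_left (ppow_ne hp _)).1 h)
  · intro j hj
    by_cases hjk : k < j
    · rw [dsc_coeff_zero hF p i y hjk]
      exact dvd_zero _
    obtain ⟨s, rfl⟩ : ∃ s, j = s + 2 := ⟨j - 2, by omega⟩
    have e := dsc_hasse hVAL p i s y F
    have hco : IsCoprime ((p : ℤ) ^ (2 * i + w + 1)) (((s + 2).choose 2 : ℕ) : ℤ) := by
      refine IsCoprime.pow_left ?_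
      rw [Nat.isCoprime_iff_coprime]
      exact (hp.coprime_iff_not_dvd).2 (not_dvd_choose hp (by omega) (by omega))
    refine hco.dvd_of_dvd_mul_left ?_
    rw [e, add_assoc, pow_add]
    exact mul_dvd_mul_left _ (hw3 s (by omega))

lemma cancel_pow {p : ℕ} (hp : p.Prime) {a κ : ℕ} {c x : ℤ} (h : (p : ℤ) ^ (a + κ) ∣ c * x)
    (hc : ¬ (p : ℤ) ^ κ ∣ c) : (p : ℤ) ^ a ∣ x := by
  by_contra hx
  have hpp : Prime (p : ℤ) := Nat.prime_iff_prime_int.1 hp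
  rw [pow_dvd_iff_le_emultiplicity, not_le] at hx hc
  rw [pow_dvd_iff_le_emultiplicity, emultiplicity_mul hpp] at h
  have h1 : emultiplicity (p : ℤ) c + emultiplicity (p : ℤ) x < κ + a := ENat.add_lt_add hc hx
  rw [Nat.cast_add, add_comm] at h
  exact absurd h (not_le.2 h1)

lemma not_pow_dvd_choose {k p j : ℕ} (hp : p.Prime) (hj : j ≤ k) (h2 : 2 ≤ j) :
    ¬ (p : ℤ) ^ (k + 1) ∣ ((j.choose 2 : ℕ) : ℤ) := by
  intro h
  have h1 : p ^ (k + 1) ∣ j.choose 2 := by exact_mod_cast h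
  have h3 := Nat.le_of_dvd (Nat.choose_pos h2) h1
  have h4 : j.choose 2 ≤ 2 ^ j := Nat.choose_le_two_pow j 2
  have h5 : 2 ^ j ≤ 2 ^ k := Nat.pow_le_pow_right (by norm_num) hj
  have h6 : 2 ^ k < 2 ^ (k + 1) := Nat.pow_lt_pow_right (by norm_num) (by omega)
  have h7 : 2 ^ (k + 1) ≤ p ^ (k + 1) := Nat.pow_le_pow_left hp.two_le _
  omega

/-- a disc in a dominated disc -/
lemma dom_sub {p : ℕ} {G : ℤ[X]} {w : ℕ} (hw1 : (p : ℤ) ^ w ∣ G.coeff 0)
    (hw2 : ¬ (p : ℤ) ^ (w + 1) ∣ G.coeff 0) (hw3 : ∀ s, 1 ≤ s → (p : ℤ) ^ (w + 1) ∣ G.coeff s)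
    (e : ℕ) (t : ℤ) :
    (p : ℤ) ^ w ∣ (dsc p e t G).coeff 0 ∧ ¬ (p : ℤ) ^ (w + 1) ∣ (dsc p e t G).coeff 0 ∧
      ∀ s, 1 ≤ s → (p : ℤ) ^ (e + w + 1) ∣ (dsc p e t G).coeff s := by
  have h0 : ∃ r : ℤ, (dsc p e t G).coeff 0 = G.coeff 0 + (p : ℤ) ^ (w + 1) * r := by
    rw [dsc_coeff, mul_zero, pow_zero, one_mul, taylor_coeff_zero]
    obtain ⟨G', hG'⟩ : ∃ G' : ℤ[X], G = C (G.coeff 0) + C ((p : ℤ) ^ (w + 1)) * G' := by
      have h : C ((p : ℤ) ^ (w + 1)) ∣ G - C (G.coeff 0) := by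
        rw [C_dvd_iff_dvd_coeff]
        intro s
        rw [coeff_sub, coeff_C]
        by_cases hs : s = 0
        · rw [if_pos hs, hs, sub_self]
          exact dvd_zero _
        · rw [if_neg hs, sub_zero]
          exact hw3 s (by omega)
      obtain ⟨G', hG'⟩ := h
      exact ⟨G', by rw [← hG']; ring⟩
    refine ⟨G'.eval t, ?_⟩
    conv_lhs => rw [hG']
    rw [eval_add, eval_mul, eval_C, eval_C]
  obtain ⟨r, hr⟩ := h0
  refine ⟨?_, ?_, ?_⟩
  · rw [hr]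
    exact dvd_add hw1 (Dvd.dvd.mul_right (pow_dvd_pow _ (by omega)) _)
  · rw [hr]
    intro h
    exact hw2 ((dvd_add_left (Dvd.intro _ rfl)).1 h)
  · intro s hs
    rw [dsc_coeff, add_assoc, pow_add]
    refine mul_dvd_mul (pow_dvd_pow _ ?_) ?_
    · calc e = e * 1 := (mul_one e).symm
        _ ≤ e * s := Nat.mul_le_mul_left _ hs
    · rw [taylor_coeff]
      rw [eval_eq_sum_range]
      refine Finset.dvd_sum (fun j _ => ?_)
      rw [hasseDeriv_coeff]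
      exact Dvd.dvd.mul_right (Dvd.dvd.mul_left (hw3 _ (by omega)) _) _

lemma gen_of_dom (hVAL : T_VAL) {k p e i : ℕ} {F : ℤ[X]} (hp : p.Prime) (hF : F.natDegree ≤ k)
    (he : e = k + 2) (y t : ℤ)
    (hD : Dom p (dsc p i y (hasseDeriv 2 F))) :
    ∃ w, Gen p 2 w (dsc p (i + e) (y + (p : ℤ) ^ i * t) F) := by
  obtain ⟨w, hw1, hw2, hw3⟩ := hD
  obtain ⟨g1, g2, g3⟩ := dom_sub hw1 hw2 hw3 e t
  rw [← dsc_add] at g1 g2 g3
  set Y : ℤ := y + (p : ℤ) ^ i * t with hY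
  have e0 := dsc_hasse hVAL p (i + e) 0 Y F
  have hc : ((0 + 2).choose 2 : ℕ) = 1 := by decide
  rw [hc, Nat.cast_one, one_mul, zero_add] at e0
  refine ⟨2 * (i + e) + w, ?_, ?_, ?_⟩
  · rw [e0, pow_add]
    exact mul_dvd_mul_left _ g1
  · rw [e0, add_assoc, pow_add]
    intro h
    exact g2 ((mul_dvd_mul_iff_left (ppow_ne hp _)).1 h)
  · intro j hj
    by_cases hjk : k < j
    · rw [dsc_coeff_zero hF p (i + e) Y hjk]
      exact dvd_zero _
    obtain ⟨s, rfl⟩ : ∃ s, j = s + 2 := ⟨j - 2, by omega⟩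
    have e1 := dsc_hasse hVAL p (i + e) s Y F
    refine cancel_pow hp (κ := k + 1) (c := (((s + 2).choose 2 : ℕ) : ℤ)) ?_
      (not_pow_dvd_choose hp (by omega) (by omega))
    rw [e1]
    have h1 : 2 * (i + e) + w + 2 + (k + 1) = 2 * (i + e) + (e + w + 1) := by omega
    rw [h1, pow_add]
    exact mul_dvd_mul_left _ (g3 s (by omega))

/-- Row NGB. -/
theorem pf_NGB (hDOM : T_DOM) (hVAL : T_VAL) : T_NGB := by
  classical
  intro k
  refine ⟨k * k ^ (k + 2) + k ^ (k + 2), ?_⟩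
  intro p i F hp hpk hF hPrm
  rw [conv_card]
  have hpe : p ^ (k + 2) ≤ k ^ (k + 2) := Nat.pow_le_pow_left hpk _
  by_cases hi : i < k + 2
  · refine le_trans (card_filter_le _ _) ?_
    rw [card_range]
    have h1 : p ^ i ≤ p ^ (k + 2) := Nat.pow_le_pow_right hp.pos (by omega)
    exact le_trans h1 (le_trans hpe (Nat.le_add_left _ _))
  obtain ⟨r, rfl⟩ : ∃ r, i = r + (k + 2) := ⟨i - (k + 2), by omega⟩
  have h1 := hDOM k p r (hasseDeriv 2 F) hp (hasse_ne hPrm)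
    (le_trans (natDegree_hasseDeriv_le _ _) (by omega))
  rw [conv_card] at h1
  set B := (range (p ^ r)).filter (fun y : ℕ => ¬ Dom p (dsc p r (y : ℤ) (hasseDeriv 2 F))) with hB
  have hsub : (range (p ^ (r + (k + 2)))).filter
      (fun y : ℕ => ¬ ∃ w, Gen p 2 w (dsc p (r + (k + 2)) (y : ℤ) F)) ⊆
      (B ×ˢ range (p ^ (k + 2))).image (fun z => z.1 + p ^ r * z.2) := by
    intro z hz
    rw [mem_filter, mem_range] at hz
    rw [mem_image]
    refine ⟨(z % p ^ r, z / p ^ r), ?_, Nat.mod_add_div z (p ^ r)⟩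
    rw [mem_product, hB, mem_filter, mem_range, mem_range]
    refine ⟨⟨Nat.mod_lt _ (pow_pos hp.pos _), fun hD => hz.2 ?_⟩, ?_⟩
    · have h2 := gen_of_dom hVAL hp hF rfl ((z % p ^ r : ℕ) : ℤ) ((z / p ^ r : ℕ) : ℤ) hD
      have h3 : ((z % p ^ r : ℕ) : ℤ) + (p : ℤ) ^ r * ((z / p ^ r : ℕ) : ℤ) = (z : ℤ) := by
        exact_mod_cast congrArg (fun n : ℕ => (n : ℤ)) (Nat.mod_add_div z (p ^ r))
      rwa [h3] at h2
    · apply Nat.div_lt_of_lt_mul
      rw [← pow_add]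
      exact hz.1
  refine le_trans (card_le_card hsub) (le_trans card_image_le ?_)
  rw [card_product, card_range]
  refine le_trans (Nat.mul_le_mul h1 hpe) (Nat.le_add_right _ _)

end Pool.Agent.H19.LV
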